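import Pool.Agent.P.MP_cb5d8b_an.Ex.Main

namespace Pool.Agent.Results.MP_cb5d8b_an.Exact

open Pool.Agent.P.MP_cb5d8b_an

/-- For every `N ≥ 1` there is an expanding Thurston map of degree four with four postcritical
points whose `n`-th iterate leaves invariant a tree through the postcritical set exactly when
`n ≥ N`. -/
theorem result : ∀ N : ℕ, 1 ≤ N → ∃ f : S2 → S2,
    IsThurston f ∧ IsExpanding f ∧ HasDegree f 4 ∧ (post f).ncard = 4 ∧
      ∀ n : ℕ, 1 ≤ n → ((∃ T : Set S2, IsTree T ∧ post f ⊆ T ∧ f^[n] '' T ⊆ T) ↔ N ≤ n) :=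
  Ex.exact_range

end Pool.Agent.Results.MP_cb5d8b_an.Exact
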