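import Pool.Agent.P.MP_cb5d8b_an.FacesMain

namespace Pool.Agent.Results.MP_cb5d8b_an.FewFaces

open Pool.Agent.P.MP_cb5d8b_an

/-- For all `M`, `N` there is an expanding Thurston map of degree four with four postcritical
points none of whose first `N` iterates leaves invariant a graph through the postcritical set with
at most `M` complementary components. A tree is a graph with one complementary component. -/
theorem result : ∀ M N : ℕ, ∃ f : S2 → S2,
    IsThurston f ∧ IsExpanding f ∧ HasDegree f 4 ∧ (post f).ncard = 4 ∧
      ∀ n : ℕ, 1 ≤ n → n ≤ N →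
        ¬ ∃ G : Set S2, IsGraph G ∧ post f ⊆ G ∧ f^[n] '' G ⊆ G ∧
          ((fun x => connectedComponentIn Gᶜ x) '' Gᶜ).encard ≤ M :=
  faces

end Pool.Agent.Results.MP_cb5d8b_an.FewFaces
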