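import Pool.Agent.P.MP_cb5d8b_an.Pt.B1
import Pool.Agent.P.MP_cb5d8b_an.Pt.B2
import Pool.Agent.P.MP_cb5d8b_an.Pt.B3
import Pool.Agent.P.MP_cb5d8b_an.Pt.B4

namespace Pool.Agent.Results.MP_cb5d8b_an.InvariantTrees

open Set Metric Filter Pool.Agent.P.MP_cb5d8b_an Pool.Agent.P.MP_cb5d8b_an.Pt

/-- Let `f` be an expanding Thurston map and `P` a finite forward invariant set that contains the
postcritical set (for instance the postcritical set itself). Drawings of trees that fit `P` exist,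
and each of them is, for every `ε` and all large `n`, `ε`-close to a drawing of the same tree with
the same vertices in `P` whose union is a tree through `P` invariant under the `n`-th iterate. -/
theorem result : ∀ f : S2 → S2, IsThurston f → IsExpanding f →
    ∀ P : Set S2, P.Finite → post f ⊆ P → MapsTo f P P →
      (∃ (m : ℕ) (par : Fin m → Fin (m + 1)) (x : Fin (m + 1) → S2)
        (a : Fin m → unitInterval → S2), IsDrawing par x a ∧ Fits P par x a) ∧
      ∀ (m : ℕ) (par : Fin m → Fin (m + 1)) (x : Fin (m + 1) → S2)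
        (a : Fin m → unitInterval → S2), IsDrawing par x a → Fits P par x a →
        ∀ ε : ℝ, 0 < ε → ∀ᶠ n : ℕ in atTop,
          ∃ (x' : Fin (m + 1) → S2) (a' : Fin m → unitInterval → S2),
            IsDrawing par x' a' ∧ (∀ v, x v ∈ P → x' v = x v) ∧ (∀ v, dist (x' v) (x v) < ε) ∧
            (∀ i, hausdorffDist (range (a' i)) (range (a i)) < ε) ∧
            IsTree (⋃ i, range (a' i)) ∧ P ⊆ ⋃ i, range (a' i) ∧
            f^[n] '' (⋃ i, range (a' i)) ⊆ ⋃ i, range (a' i) :=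
  p_MAIN p_BC (p_STAR Pt.p_LIFT) (p_SL p_BC Pt.p_LIFT (p_STAR Pt.p_LIFT) p_LJ)
    (p_SM Pt.p_LIFT (p_STAR Pt.p_LIFT)) p_RAY (p_WALK Pt.p_LIFT (p_STAR Pt.p_LIFT) p_BALL) p_COR
    (p_L1 p_BALL p_PATH (p_LEGS p_PATH)) (p_INST Pt.p_LIFT p_ABS p_INJ p_UQ) p_TREE p_HD p_MODEL
    p_CONV

end Pool.Agent.Results.MP_cb5d8b_an.InvariantTrees
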