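import Pool.Agent.P.MP_cb5d8b_an.Na.Main
import Pool.Agent.P.MP_cb5d8b_an.Mp.Map

namespace Pool.Agent.Results.MP_cb5d8b_an.NoArc

open Pool.Agent.P.MP_cb5d8b_an

/-- There is an expanding Thurston map of degree seven with three postcritical points such that
for every `n ≥ 1` and every arc `A` through the postcritical set the union of `A` and its image
under the `n`-th iterate contains a Jordan curve. In particular no iterate has an invariant arc
through the postcritical set. -/
theorem result : ∃ f : S2 → S2,
    IsThurston f ∧ IsExpanding f ∧ HasDegree f 7 ∧ (post f).ncard = 3 ∧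
      ∀ n : ℕ, 1 ≤ n → ∀ γ : unitInterval → S2, Continuous γ → Function.Injective γ →
        post f ⊆ Set.range γ →
          ∃ C : Set S2, IsJordanCurve C ∧ C ⊆ Set.range γ ∪ f^[n] '' Set.range γ :=
  Na.glue Mp.p_MAP

end Pool.Agent.Results.MP_cb5d8b_an.NoArc
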